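import Pool.Agent.H983R2.ONJ.GeoA
import Pool.Agent.H983R2.ONJ.Gib2

/-! # Task TRUNC: truncation and rational approximation of the couplings -/

set_option autoImplicit false

noncomputable section

namespace Pool.Agent.H983R2.ONJ

open MeasureTheory Pool.Agent.H5R2.ON Pool.Agent.H717R2.ON3

namespace Aux602

theorem sum_sig {L : ℕ} [NeZero L] (m : Tor L × Tor L → ℕ) (f : Tor L × Tor L → ℝ) :
    ∑ e : (Σ e : Tor L × Tor L, Fin (m e)), f e.1 = ∑ e : Tor L × Tor L, (m e : ℝ) * f e := by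
  rw [Fintype.sum_sigma]
  refine Finset.sum_congr rfl fun e _ => ?_
  simp

theorem sum_left {L : ℕ} [NeZero L] (g : Tor L → ℝ) (x : Tor L) :
    ∑ y : Tor L, g (y - x) = ∑ z : Tor L, g z := by
  rw [← (Equiv.subRight x).sum_comp (fun z => g z)]
  rfl

theorem sum_right {L : ℕ} [NeZero L] (g : Tor L → ℝ) (y : Tor L) :
    ∑ x : Tor L, g (y - x) = ∑ z : Tor L, g z := by
  rw [← (Equiv.subLeft y).sum_comp (fun z => g z)]
  rfl

theorem card_tor (L : ℕ) [NeZero L] : (Fintype.card (Tor L) : ℝ) = (L : ℝ) ^ 2 := by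
  rw [Fintype.card_prod, ZMod.card]
  push_cast
  ring

theorem tn_nonneg {L : ℕ} (x : Tor L) : 0 ≤ tnorm x := Real.sqrt_nonneg _

open Classical in
theorem dsum {L : ℕ} [NeZero L] (d : Tor L × Tor L → ℝ) (hd : ∀ e, 0 ≤ d e) (B : ℝ)
    (h1 : ∀ x, ∑ y, d (x, y) ≤ B) (h2 : ∀ y, ∑ x, d (x, y) ≤ B) (Λ : Finset (Tor L)) :
    ∑ e ∈ Finset.univ.filter (fun e : Tor L × Tor L => e.1 ∈ Λ ∨ e.2 ∈ Λ), d e ≤
      2 * Λ.card * B := by
  have a1 : ∑ e ∈ Finset.univ.filter (fun e : Tor L × Tor L => e.1 ∈ Λ ∨ e.2 ∈ Λ), d e ≤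
      ∑ e : Tor L × Tor L, ((if e.1 ∈ Λ then d e else 0) + (if e.2 ∈ Λ then d e else 0)) := by
    rw [Finset.sum_filter]
    refine Finset.sum_le_sum fun e _ => ?_
    have := hd e
    split_ifs <;> simp_all
  refine a1.trans ?_
  rw [Finset.sum_add_distrib]
  have a2 : ∑ e : Tor L × Tor L, (if e.1 ∈ Λ then d e else 0) ≤ Λ.card * B := by
    rw [Fintype.sum_prod_type]
    have : ∀ x : Tor L, ∑ y : Tor L, (if (x, y).1 ∈ Λ then d (x, y) else 0) =
        if x ∈ Λ then ∑ y, d (x, y) else 0 := by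
      intro x
      by_cases hx : x ∈ Λ <;> simp [hx]
    rw [Finset.sum_congr rfl fun x _ => this x, ← Finset.sum_filter, Finset.filter_mem_eq_inter,
      Finset.univ_inter]
    refine (Finset.sum_le_card_nsmul _ _ _ fun x _ => h1 x).trans ?_
    rw [nsmul_eq_mul]
  have a3 : ∑ e : Tor L × Tor L, (if e.2 ∈ Λ then d e else 0) ≤ Λ.card * B := by
    rw [Fintype.sum_prod_type_right]
    have : ∀ y : Tor L, ∑ x : Tor L, (if (x, y).2 ∈ Λ then d (x, y) else 0) =
        if y ∈ Λ then ∑ x, d (x, y) else 0 := by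
      intro x
      by_cases hx : x ∈ Λ <;> simp [hx]
    rw [Finset.sum_congr rfl fun x _ => this x, ← Finset.sum_filter, Finset.filter_mem_eq_inter,
      Finset.univ_inter]
    refine (Finset.sum_le_card_nsmul _ _ _ fun x _ => h2 x).trans ?_
    rw [nsmul_eq_mul]
  linarith

theorem inner_le_one {N : ℕ} (s t : Sph N) :
    |inner ℝ (s : EuclideanSpace ℝ (Fin N)) (t : EuclideanSpace ℝ (Fin N))| ≤ 1 := by
  have h := abs_real_inner_le_norm (s : EuclideanSpace ℝ (Fin N)) (t : EuclideanSpace ℝ (Fin N))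
  have h1 : ‖(s : EuclideanSpace ℝ (Fin N))‖ = 1 := by
    simp
  have h2 : ‖(t : EuclideanSpace ℝ (Fin N))‖ = 1 := by
    simp
  rw [h1, h2, mul_one] at h
  exact h

end Aux602

open Aux602

theorem enG_gJ {N L : ℕ} [NeZero L] (m : Tor L × Tor L → ℕ) (n : ℕ) (S : Conf N L) :
    (1 / (n : ℝ)) * enG (gJ m) S = pS (fun e => (m e : ℝ) / n) S := by
  unfold enG pS
  have h := sum_sig m (fun e => inner ℝ (S e.1 : EuclideanSpace ℝ (Fin N)) (S e.2))
  have h' : ∑ e, inner ℝ (S ((gJ m).s e) : EuclideanSpace ℝ (Fin N)) (S ((gJ m).t e)) =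
      ∑ e : Tor L × Tor L, (m e : ℝ) * inner ℝ (S e.1 : EuclideanSpace ℝ (Fin N)) (S e.2) := h
  rw [h', Finset.mul_sum]
  refine Finset.sum_congr rfl fun e _ => ?_
  ring

theorem nice_gJ (A a : ℝ) (hA : 0 ≤ A) (ha : 0 < a) : ∃ K : ℝ, 0 ≤ K ∧ ∀ (L : ℕ) [NeZero L]
    (m : Tor L × Tor L → ℕ) (n : ℕ) (ρ : ℝ), 0 < n → 0 ≤ ρ →
    ExpC A a (fun e => (m e : ℝ) / n) → (∀ e, m e ≠ 0 → tnorm (e.2 - e.1) ≤ ρ) →
    Nice (gJ m) (1 / (n : ℝ)) ρ K := by
  classical
  obtain ⟨K, hK, hs⟩ := lsum a ha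
  refine ⟨A * K, by positivity, ?_⟩
  intro L _ m n ρ hn hρ hc hm
  have hn' : (0 : ℝ) < n := by exact_mod_cast hn
  have hpt : ∀ e : Tor L × Tor L, 1 / (n : ℝ) * ((m e : ℝ) * tnorm (e.2 - e.1) ^ 2) ≤
      A * ((1 + tnorm (e.2 - e.1)) ^ 2 * Real.exp (-a * tnorm (e.2 - e.1))) := by
    intro e
    have h1 := (hc e).2
    have h2 := tn_nonneg (e.2 - e.1)
    calc 1 / (n : ℝ) * ((m e : ℝ) * tnorm (e.2 - e.1) ^ 2)
        = (m e : ℝ) / n * tnorm (e.2 - e.1) ^ 2 := by ring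
      _ ≤ (A * Real.exp (-a * tnorm (e.2 - e.1))) * (1 + tnorm (e.2 - e.1)) ^ 2 := by
          refine mul_le_mul h1 (pow_le_pow_left₀ h2 (by linarith) 2) (by positivity) (by positivity)
      _ = _ := by ring
  refine ⟨by positivity, ?_, ?_, ?_⟩
  · rintro ⟨e, i⟩
    refine hm e ?_
    intro h0
    rw [h0] at i
    exact i.elim0
  · intro x
    have e1 : ∑ e ∈ Finset.univ.filter (fun e => (gJ m).s e = x),
        tnorm ((gJ m).t e - (gJ m).s e) ^ 2 =
        ∑ e : Tor L × Tor L, (m e : ℝ) * (if e.1 = x then tnorm (e.2 - e.1) ^ 2 else 0) := by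
      rw [Finset.sum_filter]
      exact sum_sig m (fun e => if e.1 = x then tnorm (e.2 - e.1) ^ 2 else 0)
    have e2 : 1 / (n : ℝ) * ∑ e ∈ Finset.univ.filter (fun e => (gJ m).s e = x),
        tnorm ((gJ m).t e - (gJ m).s e) ^ 2 =
        ∑ y : Tor L, 1 / (n : ℝ) * ((m (x, y) : ℝ) * tnorm (y - x) ^ 2) := by
      rw [e1, Fintype.sum_prod_type, Finset.sum_eq_single x]
      · rw [Finset.mul_sum]
        refine Finset.sum_congr rfl fun y _ => ?_
        simp
      · intro b _ hb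
        simp [hb]
      · intro h
        exact absurd (Finset.mem_univ x) h
    calc 1 / (n : ℝ) * ∑ e ∈ Finset.univ.filter (fun e => (gJ m).s e = x),
        tnorm ((gJ m).t e - (gJ m).s e) ^ 2 =
        ∑ y : Tor L, 1 / (n : ℝ) * ((m (x, y) : ℝ) * tnorm (y - x) ^ 2) := e2
      _ ≤ ∑ y : Tor L, A * ((1 + tnorm (y - x)) ^ 2 * Real.exp (-a * tnorm (y - x))) :=
          Finset.sum_le_sum fun y _ => hpt (x, y)
      _ = A * ∑ z : Tor L, (1 + tnorm z) ^ 2 * Real.exp (-a * tnorm z) := by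
          rw [← Finset.mul_sum,
            sum_left (fun z => (1 + tnorm z) ^ 2 * Real.exp (-a * tnorm z)) x]
      _ ≤ A * K := mul_le_mul_of_nonneg_left (hs L) hA
  · intro x
    have e1 : ∑ e ∈ Finset.univ.filter (fun e => (gJ m).t e = x),
        tnorm ((gJ m).t e - (gJ m).s e) ^ 2 =
        ∑ e : Tor L × Tor L, (m e : ℝ) * (if e.2 = x then tnorm (e.2 - e.1) ^ 2 else 0) := by
      rw [Finset.sum_filter]
      exact sum_sig m (fun e => if e.2 = x then tnorm (e.2 - e.1) ^ 2 else 0)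
    have e2 : 1 / (n : ℝ) * ∑ e ∈ Finset.univ.filter (fun e => (gJ m).t e = x),
        tnorm ((gJ m).t e - (gJ m).s e) ^ 2 =
        ∑ y : Tor L, 1 / (n : ℝ) * ((m (y, x) : ℝ) * tnorm (x - y) ^ 2) := by
      rw [e1, Fintype.sum_prod_type_right, Finset.sum_eq_single x]
      · rw [Finset.mul_sum]
        refine Finset.sum_congr rfl fun y _ => ?_
        simp
      · intro b _ hb
        simp [hb]
      · intro h
        exact absurd (Finset.mem_univ x) h
    calc 1 / (n : ℝ) * ∑ e ∈ Finset.univ.filter (fun e => (gJ m).t e = x),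
        tnorm ((gJ m).t e - (gJ m).s e) ^ 2 =
        ∑ y : Tor L, 1 / (n : ℝ) * ((m (y, x) : ℝ) * tnorm (x - y) ^ 2) := e2
      _ ≤ ∑ y : Tor L, A * ((1 + tnorm (x - y)) ^ 2 * Real.exp (-a * tnorm (x - y))) :=
          Finset.sum_le_sum fun y _ => hpt (y, x)
      _ = A * ∑ z : Tor L, (1 + tnorm z) ^ 2 * Real.exp (-a * tnorm z) := by
          rw [← Finset.mul_sum,
            sum_right (fun z => (1 + tnorm z) ^ 2 * Real.exp (-a * tnorm z)) x]
      _ ≤ A * K := mul_le_mul_of_nonneg_left (hs L) hA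

theorem trunc (A a : ℝ) (hA : 0 ≤ A) (ha : 0 < a) : ∃ C : ℝ, 0 < C ∧ ∀ (L : ℕ) [NeZero L]
    (c : Tor L × Tor L → ℝ), ExpC A a c → ∀ (p : Tor L) (R ρ : ℝ), 1 ≤ R → 0 ≤ ρ →
    ∃ (m : Tor L × Tor L → ℕ) (n : ℕ), 0 < n ∧ ExpC A a (fun e => (m e : ℝ) / n) ∧
      (∀ e, m e ≠ 0 → tnorm (e.2 - e.1) ≤ ρ) ∧
      ∀ (N : ℕ), N ≠ 0 → ∀ (η : Conf N L) (F : Conf N L → ℝ), Measurable F →
        (∀ S, |F S| ≤ 1) →
        |gH (pS c) (ball p R) η F - gH (fun S => (1 / (n : ℝ)) * enG (gJ m) S) (ball p R) η F| ≤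
          Real.exp (C * R ^ 2 * Real.exp (-(a / 2) * ρ)) - 1 := by
  classical
  obtain ⟨K0, hK0, hball⟩ := ball_card
  obtain ⟨Kl, hKl, hs⟩ := lsum (a / 2) (by positivity)
  refine ⟨16 * K0 * (A * Kl + 1), by positivity, ?_⟩
  intro L _ c hc p R ρ hR hρ
  obtain ⟨q, hq⟩ : ∃ q : ℝ, q = Real.exp (-(a / 2) * ρ) := ⟨_, rfl⟩
  have hq0 : 0 < q := by rw [hq]; exact Real.exp_pos _
  obtain ⟨n, hn⟩ : ∃ n : ℕ, n = ⌈(L : ℝ) ^ 2 / q⌉₊ + 1 := ⟨_, rfl⟩
  have hn0 : 0 < n := by omega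
  have hn' : (0 : ℝ) < n := by exact_mod_cast hn0
  have hnL : (L : ℝ) ^ 2 / n ≤ q := by
    rw [div_le_iff₀ hn', ← div_le_iff₀' hq0]
    refine (Nat.le_ceil _).trans ?_
    rw [hn]
    push_cast
    linarith
  let m : Tor L × Tor L → ℕ := fun e => if tnorm (e.2 - e.1) ≤ ρ then ⌊(n : ℝ) * c e⌋₊ else 0
  have hmc : ∀ e, (m e : ℝ) / n ≤ c e := by
    intro e
    rw [div_le_iff₀ hn']
    simp only [m]
    split_ifs
    · rw [mul_comm (c e)]
      exact Nat.floor_le (mul_nonneg hn'.le (hc e).1)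
    · simpa using mul_nonneg (hc e).1 hn'.le
  have hmr : ∀ e, m e ≠ 0 → tnorm (e.2 - e.1) ≤ ρ := by
    intro e he
    by_contra hcon
    apply he
    simp only [m]
    rw [if_neg hcon]
  refine ⟨m, n, hn0, fun e => ⟨by positivity, (hmc e).trans (hc e).2⟩, hmr, ?_⟩
  intro N hN η F hF hF1
  -- the difference of the couplings
  obtain ⟨d, hd⟩ : ∃ d : Tor L × Tor L → ℝ, d = fun e => c e - (m e : ℝ) / n := ⟨_, rfl⟩
  have hd0 : ∀ e, 0 ≤ d e := fun e => by rw [hd]; simp only; linarith [hmc e]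
  have hd1 : ∀ e, d e ≤ 1 / n + A * q * Real.exp (-(a / 2) * tnorm (e.2 - e.1)) := by
    intro e
    rw [hd]
    simp only
    have hex := Real.exp_pos (-(a / 2) * tnorm (e.2 - e.1))
    by_cases h : tnorm (e.2 - e.1) ≤ ρ
    · have e1 : (m e : ℝ) = (⌊(n : ℝ) * c e⌋₊ : ℝ) := by
        simp only [m]
        rw [if_pos h]
      have e2 : (n : ℝ) * c e < (⌊(n : ℝ) * c e⌋₊ : ℝ) + 1 := Nat.lt_floor_add_one _
      have e3 : c e - (m e : ℝ) / n ≤ 1 / n := by
        rw [e1, sub_le_iff_le_add, ← add_div, le_div_iff₀ hn', mul_comm]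
        linarith
      have e4 : 0 ≤ A * q * Real.exp (-(a / 2) * tnorm (e.2 - e.1)) := by positivity
      linarith
    · have e1 : (m e : ℝ) = 0 := by
        simp only [m]
        rw [if_neg h]
        simp
      rw [e1, zero_div, sub_zero]
      have h' := not_le.1 h
      have e2 : A * Real.exp (-a * tnorm (e.2 - e.1)) ≤
          A * q * Real.exp (-(a / 2) * tnorm (e.2 - e.1)) := by
        rw [mul_assoc]
        refine mul_le_mul_of_nonneg_left ?_ hA
        rw [hq, ← Real.exp_add]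
        refine Real.exp_le_exp.2 ?_
        nlinarith
      have e3 : 0 < 1 / (n : ℝ) := by positivity
      linarith [(hc e).2]
  have hsum : ∑ z : Tor L, (1 / (n : ℝ) + A * q * Real.exp (-(a / 2) * tnorm z)) ≤
      (A * Kl + 1) * q := by
    rw [Finset.sum_add_distrib, Finset.sum_const, ← Finset.mul_sum, nsmul_eq_mul,
      Finset.card_univ, card_tor]
    have e1 : ∑ z : Tor L, Real.exp (-(a / 2) * tnorm z) ≤ Kl := by
      refine le_trans (Finset.sum_le_sum fun z _ => ?_) (hs L)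
      have h1 : 1 ≤ (1 + tnorm z) ^ 2 := by
        have := tn_nonneg z
        nlinarith
      exact le_mul_of_one_le_left (Real.exp_pos _).le h1
    have e2 : A * q * ∑ z : Tor L, Real.exp (-(a / 2) * tnorm z) ≤ A * q * Kl :=
      mul_le_mul_of_nonneg_left e1 (by positivity)
    have e3 : (L : ℝ) ^ 2 * (1 / n) = (L : ℝ) ^ 2 / n := by ring
    rw [e3]
    linarith
  have hrow : ∀ x, ∑ y, d (x, y) ≤ (A * Kl + 1) * q := by
    intro x
    refine (Finset.sum_le_sum fun y _ => hd1 (x, y)).trans ?_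
    have := sum_left (fun z : Tor L => 1 / (n : ℝ) + A * q * Real.exp (-(a / 2) * tnorm z)) x
    simp only at this ⊢
    rw [this]
    exact hsum
  have hcol : ∀ y, ∑ x, d (x, y) ≤ (A * Kl + 1) * q := by
    intro y
    refine (Finset.sum_le_sum fun x _ => hd1 (x, y)).trans ?_
    have := sum_right (fun z : Tor L => 1 / (n : ℝ) + A * q * Real.exp (-(a / 2) * tnorm z)) y
    simp only at this ⊢
    rw [this]
    exact hsum
  have hD := dsum d hd0 _ hrow hcol (ball p R)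
  -- comparison of the energies
  obtain ⟨κ, hκ⟩ : ∃ κ : ℝ, κ = ∑ e ∈ Finset.univ.filter
      (fun e : Tor L × Tor L => ¬ (e.1 ∈ ball p R ∨ e.2 ∈ ball p R)),
      d e * inner ℝ (η e.1 : EuclideanSpace ℝ (Fin N)) (η e.2) := ⟨_, rfl⟩
  obtain ⟨δ, hδ⟩ : ∃ δ : ℝ, δ = 2 * (ball p R).card * ((A * Kl + 1) * q) := ⟨_, rfl⟩
  have hcmp : ∀ S : Conf N L, |pS c (splice (ball p R) S η) -
      (1 / (n : ℝ)) * enG (gJ m) (splice (ball p R) S η) - κ| ≤ δ := by
    intro S
    rw [enG_gJ]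
    have e1 : pS c (splice (ball p R) S η) - pS (fun e => (m e : ℝ) / n) (splice (ball p R) S η) =
        ∑ e : Tor L × Tor L, d e * inner ℝ
          (splice (ball p R) S η e.1 : EuclideanSpace ℝ (Fin N)) (splice (ball p R) S η e.2) := by
      unfold pS
      rw [← Finset.sum_sub_distrib]
      refine Finset.sum_congr rfl fun e _ => ?_
      rw [hd]
      simp only
      ring
    have e2 : κ = ∑ e ∈ Finset.univ.filter
        (fun e : Tor L × Tor L => ¬ (e.1 ∈ ball p R ∨ e.2 ∈ ball p R)),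
        d e * inner ℝ (splice (ball p R) S η e.1 : EuclideanSpace ℝ (Fin N))
          (splice (ball p R) S η e.2) := by
      rw [hκ]
      refine Finset.sum_congr rfl fun e he => ?_
      have h1 := (Finset.mem_filter.1 he).2
      push Not at h1
      unfold splice
      rw [if_neg h1.1, if_neg h1.2]
    rw [e1, e2, ← Finset.sum_filter_add_sum_filter_not Finset.univ
      (fun e : Tor L × Tor L => (e.1 ∈ ball p R ∨ e.2 ∈ ball p R)), add_sub_cancel_right, hδ]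
    refine (Finset.abs_sum_le_sum_abs _ _).trans (le_trans (Finset.sum_le_sum fun e _ => ?_) hD)
    rw [abs_mul, abs_of_nonneg (hd0 e)]
    exact mul_le_of_le_one_right (hd0 e) (inner_le_one _ _)
  have hfin := gH_compare hN (continuous_pS c) (H' := fun S => (1 / (n : ℝ)) * enG (gJ m) S)
    (continuous_const.mul (continuous_enG (gJ m))) (ball p R) η κ δ hcmp hF hF1
  refine hfin.trans ?_
  have hδ2 : 2 * δ ≤ 16 * K0 * (A * Kl + 1) * R ^ 2 * Real.exp (-(a / 2) * ρ) := by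
    rw [← hq, hδ]
    have e1 := hball L p R (by linarith)
    have e2 : (1 + R) ^ 2 ≤ 4 * R ^ 2 := by nlinarith
    have e3 : ((ball p R).card : ℝ) ≤ K0 * (4 * R ^ 2) :=
      e1.trans (mul_le_mul_of_nonneg_left e2 hK0.le)
    have e4 : 0 ≤ (A * Kl + 1) * q := by positivity
    nlinarith [mul_le_mul_of_nonneg_right e3 e4]
  have := Real.exp_le_exp.2 hδ2
  linarith

end Pool.Agent.H983R2.ONJ
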